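import Pool.Agent.X171.Det.Circ

/-!
# The compact interval has no detecting group
-/

set_option autoImplicit false

open Set Filter Topology Metric
open scoped Manifold ContDiff

noncomputable section

namespace Pool.Agent.X171.Det

attribute [local instance] finrank_real_complex_fact'

instance connectedSpace_J : ConnectedSpace J :=
  isConnected_iff_connectedSpace.1 (isConnected_Icc (by norm_num))

instance connectedSpace_C1 : ConnectedSpace C1 := by
  apply isConnected_iff_connectedSpace.1
  exact isConnected_sphere (by
    rw [← Module.finrank_eq_rank, Complex.finrank_real_complex]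
    norm_num) 0 zero_le_one

/-- no group whatsoever detects the compact interval -/
theorem not_detecting (k : ℕ∞) (hk : 1 ≤ k) (G : Type*) [Group G]
    (hG : ∀ (N : Type) [TopologicalSpace N] [T2Space N] [CompactSpace N] [ConnectedSpace N]
      [ChartedSpace (EuclideanHalfSpace 1) N]
      [IsManifold (modelWithCornersEuclideanHalfSpace 1) ((⊤ : ℕ∞) : WithTop ℕ∞) N],
      ((∃ ρ : G →* Equiv.Perm N, Function.Injective ρ ∧
          ∀ g : G, ContMDiff (modelWithCornersEuclideanHalfSpace 1)
            (modelWithCornersEuclideanHalfSpace 1) (k : WithTop ℕ∞) (ρ g)) ↔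
        Nonempty (Diffeomorph (modelWithCornersEuclideanHalfSpace 1)
          (modelWithCornersEuclideanHalfSpace 1) J N (k : WithTop ℕ∞)))) : False := by
  obtain ⟨ρ, hρ, hs⟩ := (hG J).2 ⟨Diffeomorph.refl _ _ _⟩
  have h := exists_lift k hk ρ hρ hs
  let := halfCharted C1
  have : IsManifold (modelWithCornersEuclideanHalfSpace 1) ((⊤ : ℕ∞) : WithTop ℕ∞) C1 :=
    half_isManifold C1
  obtain ⟨e⟩ := (hG C1).1 h
  exact not_homeo e.toHomeomorph

end Pool.Agent.X171.Det
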