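import Pool.Agent.X171.Det.Lift

/-!
# The lifted action on the circle
-/

set_option autoImplicit false

open Set Filter Topology Metric
open scoped Manifold ContDiff

noncomputable section

namespace Pool.Agent.X171.Det

attribute [local instance] finrank_real_complex_fact'

/-- the circle -/
abbrev C1 : Type := sphere (0 : ℂ) 1

lemma mem_C1 {z : ℂ} : z ∈ sphere (0 : ℂ) 1 ↔ z.re ^ 2 + z.im ^ 2 = 1 := by
  rw [mem_sphere_zero_iff_norm, ← sq_eq_sq₀ (norm_nonneg _) zero_le_one, Complex.sq_norm,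
    Complex.normSq_apply, one_pow, sq, sq]

lemma re_mem {z : ℂ} (hz : z ∈ sphere (0 : ℂ) 1) : z.re ∈ Icc (-1 : ℝ) 1 := by
  rw [mem_C1] at hz
  constructor <;> nlinarith [sq_nonneg z.im, sq_nonneg z.re]

lemma re_mem_Ioo {z : ℂ} (hz : z ∈ sphere (0 : ℂ) 1) (h : z.im ≠ 0) :
    z.re ∈ Ioo (-1 : ℝ) 1 := by
  rw [mem_C1] at hz
  have := pow_pos (abs_pos.2 h) 2
  rw [sq_abs] at this
  constructor <;> nlinarith

lemma re_of_im_eq_zero {z : ℂ} (hz : z ∈ sphere (0 : ℂ) 1) (h : z.im = 0) :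
    z.re = 1 ∨ z.re = -1 := by
  rw [mem_C1, h] at hz
  have : (z.re - 1) * (z.re + 1) = 0 := by nlinarith
  rcases mul_eq_zero.1 this with h | h
  · left; linarith
  · right; linarith

lemma sign_sq {s : ℝ} (h : s ≠ 0) : Real.sign s ^ 2 = 1 := by
  rcases lt_or_gt_of_ne h with h | h
  · rw [Real.sign_of_neg h]; norm_num
  · rw [Real.sign_of_pos h]; norm_num

lemma one_sub_nonneg (ψ : J → J) (x : ℝ) : 0 ≤ 1 - hat ψ x ^ 2 := by
  have := hat_mem ψ x
  nlinarith [this.1, this.2]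

lemma lift_mem (ψ : Equiv.Perm J) (hc : Continuous ψ) {z : ℂ} (hz : z ∈ sphere (0 : ℂ) 1) :
    lift ψ z ∈ sphere (0 : ℂ) 1 := by
  rw [mem_C1]
  show hat ψ z.re ^ 2 + (Real.sign z.im * √(1 - hat ψ z.re ^ 2)) ^ 2 = 1
  rw [mul_pow, Real.sq_sqrt (one_sub_nonneg _ _)]
  by_cases h : z.im = 0
  · have he := endpoints_sq hc ψ.bijective
    have : hat ψ z.re ^ 2 = 1 := by
      rcases re_of_im_eq_zero hz h with h | h
      · rw [h]; exact he.1
      · rw [h]; exact he.2
    rw [this]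
    ring
  · rw [sign_sq h]
    ring

/-- the sign of the imaginary part is preserved -/
lemma sign_lift (ψ : Equiv.Perm J) (hc : Continuous ψ) {z : ℂ} (hz : z ∈ sphere (0 : ℂ) 1) :
    Real.sign (lift ψ z).im = Real.sign z.im := by
  show Real.sign (Real.sign z.im * √(1 - hat ψ z.re ^ 2)) = Real.sign z.im
  by_cases h : z.im = 0
  · simp [h]
  · have h1 := sq_lt_one hc ψ.bijective (re_mem_Ioo hz h)
    have h2 : 0 < √(1 - hat ψ z.re ^ 2) := Real.sqrt_pos.2 (by linarith)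
    rcases lt_or_gt_of_ne h with h | h
    · rw [Real.sign_of_neg h, Real.sign_of_neg (by linarith)]
    · rw [Real.sign_of_pos h, Real.sign_of_pos (by linarith)]

lemma lift_comp (φ ψ : Equiv.Perm J) (hc : Continuous ψ) {z : ℂ}
    (hz : z ∈ sphere (0 : ℂ) 1) : lift φ (lift ψ z) = lift (φ ∘ ψ) z := by
  have h1 := sign_lift ψ hc hz
  apply Complex.ext
  · show hat φ (hat ψ z.re) = hat (φ ∘ ψ) z.re
    rw [hat_comp]
  · show Real.sign (lift ψ z).im * √(1 - hat φ (hat ψ z.re) ^ 2) =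
      Real.sign z.im * √(1 - hat (φ ∘ ψ) z.re ^ 2)
    rw [h1, hat_comp]

lemma lift_id {z : ℂ} (hz : z ∈ sphere (0 : ℂ) 1) : lift (id : J → J) z = z := by
  have h1 : hat id z.re = z.re := by
    rw [hat_of_mem _ (re_mem hz)]
    rfl
  apply Complex.ext
  · exact h1
  · show Real.sign z.im * √(1 - hat id z.re ^ 2) = z.im
    rw [h1]
    have : 1 - z.re ^ 2 = z.im ^ 2 := by
      rw [mem_C1] at hz
      linarith
    rw [this, Real.sqrt_sq_eq_abs, sign_mul_abs']

/-- the self-map of the circle -/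
def circ (ψ : Equiv.Perm J) (hc : Continuous ψ) (z : C1) : C1 := ⟨lift ψ z, lift_mem ψ hc z.2⟩

lemma circ_contMDiff (k : ℕ∞) (hk : 1 ≤ k) (ψ : Equiv.Perm J)
    (h : ContMDiff (𝓡∂ 1) (𝓡∂ 1) (k : WithTop ℕ∞) ψ)
    (h' : ContMDiff (𝓡∂ 1) (𝓡∂ 1) (k : WithTop ℕ∞) ψ.symm) :
    ContMDiff (𝓡 1) (𝓡 1) (k : WithTop ℕ∞) (circ ψ h.continuous) := by
  have key : ContMDiff (𝓡 1) 𝓘(ℝ, ℂ) (k : WithTop ℕ∞) (fun z : C1 => lift ψ z) := by
    intro z
    have hcoe : ContMDiffAt (𝓡 1) 𝓘(ℝ, ℂ) (k : WithTop ℕ∞) (fun w : C1 => (w : ℂ)) z :=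
      contMDiff_coe_sphere z
    by_cases hz : (z : ℂ).im = 0
    · have him : ContMDiffAt (𝓡 1) 𝓘(ℝ, ℝ) (k : WithTop ℕ∞) (fun w : C1 => (w : ℂ).im) z :=
        (Complex.imCLM.contDiff.contMDiff (z : ℂ)).comp z hcoe
      obtain ⟨ε, hε, hzε⟩ : ∃ ε : ℝ, (ε = 1 ∨ ε = -1) ∧ (z : ℂ).re = ε :=
        ⟨_, re_of_im_eq_zero z.2 hz, rfl⟩
      have h1 := lift_contDiffAt_end k hk ψ h h' ε hε
      have h2 : ContMDiffAt (𝓡 1) 𝓘(ℝ, ℂ) (k : WithTop ℕ∞) (fun w : C1 =>
          (⟨hat ψ (ε * √(1 - (w : ℂ).im ^ 2)),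
            Real.sign (w : ℂ).im * √(1 - hat ψ (ε * √(1 - (w : ℂ).im ^ 2)) ^ 2)⟩ : ℂ)) z := by
        have h1' : ContMDiffAt 𝓘(ℝ, ℝ) 𝓘(ℝ, ℂ) (k : WithTop ℕ∞)
            (fun s : ℝ => (⟨hat ψ (ε * √(1 - s ^ 2)),
              Real.sign s * √(1 - hat ψ (ε * √(1 - s ^ 2)) ^ 2)⟩ : ℂ)) (z : ℂ).im := by
          rw [hz]
          exact h1.contMDiffAt
        exact h1'.comp z him
      refine h2.congr_of_eventuallyEq ?_
      have hpos : ∀ᶠ w : C1 in 𝓝 z, 0 < ε * (w : ℂ).re := by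
        have hcont : Continuous fun w : C1 => ε * (w : ℂ).re :=
          continuous_const.mul (Complex.continuous_re.comp continuous_subtype_val)
        refine hcont.continuousAt.eventually_const_lt ?_
        show 0 < ε * (z : ℂ).re
        rw [hzε]
        rcases hε with rfl | rfl <;> norm_num
      filter_upwards [hpos] with w hw
      have hre : ε * √(1 - (w : ℂ).im ^ 2) = (w : ℂ).re := by
        have h3 : 1 - (w : ℂ).im ^ 2 = (w : ℂ).re ^ 2 := by
          have := mem_C1.1 w.2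
          linarith
        rw [h3, Real.sqrt_sq_eq_abs]
        rcases hε with rfl | rfl
        · rw [one_mul] at hw ⊢
          exact abs_of_pos hw
        · rw [abs_of_neg (by linarith)]
          ring
      rw [hre]
      rfl
    · exact (lift_contDiffAt_of_ne h ψ.bijective hz (re_mem_Ioo z.2 hz)).contMDiffAt.comp z hcoe
  exact key.codRestrict_sphere fun z => lift_mem ψ h.continuous z.2

/-- the lifted homomorphism -/
def liftHom {G : Type*} [Group G] (ρ : G →* Equiv.Perm J) (hc : ∀ g, Continuous (ρ g)) :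
    G →* Equiv.Perm C1 :=
  MonoidHom.toHomPerm
    { toFun := fun g => (circ (ρ g) (hc g) : C1 → C1)
      map_one' := by
        funext z
        apply Subtype.ext
        show lift (ρ 1) z = z
        rw [map_one]
        exact lift_id z.2
      map_mul' := by
        intro g g'
        funext z
        apply Subtype.ext
        show lift (ρ (g * g')) z = lift (ρ g) (lift (ρ g') z)
        rw [map_mul, lift_comp _ _ (hc g') z.2]
        rfl }

lemma liftHom_apply {G : Type*} [Group G] (ρ : G →* Equiv.Perm J) (hc : ∀ g, Continuous (ρ g))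
    (g : G) : (liftHom ρ hc g : C1 → C1) = circ (ρ g) (hc g) := rfl

lemma liftHom_injective {G : Type*} [Group G] (ρ : G →* Equiv.Perm J)
    (hc : ∀ g, Continuous (ρ g)) (hρ : Function.Injective ρ) :
    Function.Injective (liftHom ρ hc) := by
  rw [injective_iff_map_eq_one]
  intro g hg
  apply hρ
  rw [map_one]
  ext x
  have hz : (⟨(x : ℝ), √(1 - (x : ℝ) ^ 2)⟩ : ℂ) ∈ sphere (0 : ℂ) 1 := by
    rw [mem_C1]
    show (x : ℝ) ^ 2 + √(1 - (x : ℝ) ^ 2) ^ 2 = 1
    rw [Real.sq_sqrt]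
    · ring
    · have := x.2
      nlinarith [this.1, this.2]
  have h1 : (liftHom ρ hc g) ⟨_, hz⟩ = ⟨_, hz⟩ := by rw [hg]; rfl
  have h2 : lift (ρ g) (⟨(x : ℝ), √(1 - (x : ℝ) ^ 2)⟩ : ℂ) = ⟨(x : ℝ), √(1 - (x : ℝ) ^ 2)⟩ :=
    congrArg Subtype.val h1
  have h3 : hat (ρ g) (x : ℝ) = (x : ℝ) := congrArg Complex.re h2
  rw [hat_coe] at h3
  exact h3

/-- the interval and the circle are not homeomorphic -/
lemma not_homeo (e : J ≃ₜ C1) : False := by
  set o : J := ⟨0, by constructor <;> norm_num⟩ with ho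
  have hv : ‖((e o : C1) : ℂ)‖ = 1 := by
    have := (e o).2
    rwa [mem_sphere_zero_iff_norm] at this
  have h1 : IsPreconnected ({e o}ᶜ : Set C1) := by
    have h2 := range_stereographic_symm hv
    have h3 : IsPreconnected (Set.range (stereographic hv).symm) :=
      isPreconnected_range (isOpenEmbedding_stereographic_symm hv).continuous
    rw [h2] at h3
    exact h3
  have h4 : IsPreconnected ({o}ᶜ : Set J) := by
    have h5 : ({o}ᶜ : Set J) = e.symm '' ({e o}ᶜ : Set C1) := by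
      ext x
      simp only [mem_compl_iff, mem_singleton_iff, mem_image]
      constructor
      · intro hx
        exact ⟨e x, fun h => hx (e.injective h), e.symm_apply_apply x⟩
      · rintro ⟨y, hy, rfl⟩ h
        exact hy (by rw [← h, e.apply_symm_apply])
    rw [h5]
    exact h1.image _ e.symm.continuous.continuousOn
  have h6 : IsPreconnected ((fun x : J => (x : ℝ)) '' ({o}ᶜ : Set J)) :=
    h4.image _ continuous_subtype_val.continuousOn
  have m1 : (1 : ℝ) ∈ (fun x : J => (x : ℝ)) '' ({o}ᶜ : Set J) :=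
    ⟨⟨1, by constructor <;> norm_num⟩, by
      simp only [mem_compl_iff, mem_singleton_iff]
      intro h
      have := congrArg Subtype.val h
      simp [ho] at this, rfl⟩
  have m2 : (-1 : ℝ) ∈ (fun x : J => (x : ℝ)) '' ({o}ᶜ : Set J) :=
    ⟨⟨-1, by constructor <;> norm_num⟩, by
      simp only [mem_compl_iff, mem_singleton_iff]
      intro h
      have := congrArg Subtype.val h
      simp [ho] at this, rfl⟩
  have h7 := h6.Icc_subset m2 m1 (show (0 : ℝ) ∈ Icc (-1 : ℝ) 1 by constructor <;> norm_num)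
  obtain ⟨x, hx, hx0⟩ := h7
  exact hx (Subtype.ext hx0)

/-- every faithful action on the interval gives a faithful action on the circle -/
theorem exists_lift {G : Type*} [Group G] (k : ℕ∞) (hk : 1 ≤ k) (ρ : G →* Equiv.Perm J)
    (hρ : Function.Injective ρ)
    (hs : ∀ g : G, ContMDiff (𝓡∂ 1) (𝓡∂ 1) (k : WithTop ℕ∞) (ρ g)) :
    letI := halfCharted C1
    ∃ σ : G →* Equiv.Perm C1, Function.Injective σ ∧
      ∀ g : G, ContMDiff (𝓡∂ 1) (𝓡∂ 1) (k : WithTop ℕ∞) (σ g) := by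
  let := halfCharted C1
  refine ⟨liftHom ρ fun g => (hs g).continuous, liftHom_injective ρ _ hρ, fun g => ?_⟩
  have h' : ContMDiff (𝓡∂ 1) (𝓡∂ 1) (k : WithTop ℕ∞) (ρ g).symm := by
    have := hs g⁻¹
    rw [map_inv] at this
    exact this
  exact contMDiff_half_iff C1 k _ (circ_contMDiff k hk (ρ g) (hs g) h')

end Pool.Agent.X171.Det
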