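import Mathlib

/-!
# One-manifolds without boundary as manifolds modelled on the half line

The exponential map turns the charts of a manifold modelled on `EuclideanSpace ℝ (Fin 1)` into
charts with values in the interior of `EuclideanHalfSpace 1`.
-/

set_option autoImplicit false

open Set Filter Topology WithLp
open scoped Manifold ContDiff

noncomputable section

namespace Pool.Agent.X171.Det

/-- the exponential map from the line to the open half line -/
def ex (v : EuclideanSpace ℝ (Fin 1)) : EuclideanSpace ℝ (Fin 1) :=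
  toLp 2 fun _ => Real.exp (v 0)

/-- the logarithm -/
def lg (v : EuclideanSpace ℝ (Fin 1)) : EuclideanSpace ℝ (Fin 1) :=
  toLp 2 fun _ => Real.log (v 0)

lemma ex_zero (v : EuclideanSpace ℝ (Fin 1)) : (ex v) 0 = Real.exp (v 0) := rfl

lemma lg_ex (v : EuclideanSpace ℝ (Fin 1)) : lg (ex v) = v := by
  ext i
  rw [Subsingleton.elim i 0]
  simp [lg, ex]

lemma ex_lg {v : EuclideanSpace ℝ (Fin 1)} (hv : 0 < v 0) : ex (lg v) = v := by
  ext i
  rw [Subsingleton.elim i 0]
  simp [lg, ex, Real.exp_log hv]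

lemma contDiff_ex (m : WithTop ℕ∞) : ContDiff ℝ m ex := by
  unfold ex
  apply contDiff_euclidean.2
  intro i
  fun_prop

lemma contDiffOn_lg (m : WithTop ℕ∞) : ContDiffOn ℝ m lg {v | 0 < v 0} := by
  unfold lg
  apply contDiffOn_euclidean.2
  intro i
  have h : ContDiffOn ℝ m (fun v : EuclideanSpace ℝ (Fin 1) => v 0) {v | 0 < v 0} := by
    fun_prop
  exact h.log (fun v hv => ne_of_gt hv)

lemma isOpen_pos : IsOpen {v : EuclideanSpace ℝ (Fin 1) | 0 < v 0} :=
  isOpen_lt continuous_const (by fun_prop)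

lemma ex_pos (v : EuclideanSpace ℝ (Fin 1)) : 0 < (ex v) 0 := Real.exp_pos _

/-- the exponential map as an open partial homeomorphism into the half line -/
def exH : OpenPartialHomeomorph (EuclideanSpace ℝ (Fin 1)) (EuclideanHalfSpace 1) where
  toFun v := ⟨ex v, (ex_pos v).le⟩
  invFun v := lg v.1
  source := univ
  target := {v | 0 < v.1 0}
  map_source' v _ := ex_pos v
  map_target' _ _ := mem_univ _
  left_inv' v _ := lg_ex v
  right_inv' v hv := Subtype.ext (ex_lg hv)
  open_source := isOpen_univ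
  open_target := isOpen_pos.preimage continuous_subtype_val
  continuousOn_toFun :=
    ((contDiff_ex 0).continuous.subtype_mk fun v => (ex_pos v).le).continuousOn
  continuousOn_invFun := by
    have h := (contDiffOn_lg 0).continuousOn
    exact h.comp continuous_subtype_val.continuousOn (fun v hv => hv)

lemma exH_symm_apply (v : EuclideanHalfSpace 1) : exH.symm v = lg v.1 := rfl

lemma exH_apply (v : EuclideanSpace ℝ (Fin 1)) : (exH v).1 = ex v := rfl

lemma exH_source : exH.source = univ := rfl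

lemma exH_target : exH.target = {v | 0 < v.1 0} := rfl

section

variable (N : Type) [TopologicalSpace N] [ChartedSpace (EuclideanSpace ℝ (Fin 1)) N]

/-- the structure of a space modelled on the half line -/
@[implicit_reducible]
def halfCharted : ChartedSpace (EuclideanHalfSpace 1) N where
  atlas := {e | ∃ c ∈ atlas (EuclideanSpace ℝ (Fin 1)) N, e = c.trans exH}
  chartAt x := (chartAt (EuclideanSpace ℝ (Fin 1)) x).trans exH
  mem_chart_source x := by
    rw [OpenPartialHomeomorph.trans_source, exH_source]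
    exact ⟨mem_chart_source _ x, trivial⟩
  chart_mem_atlas x := ⟨_, chart_mem_atlas _ x, rfl⟩

end

lemma symm_val {v : EuclideanSpace ℝ (Fin 1)} (hv : v ∈ range (𝓡∂ 1)) :
    ((𝓡∂ 1).symm v).1 = v := (𝓡∂ 1).right_inv hv

section

variable (N : Type) [TopologicalSpace N] [ChartedSpace (EuclideanSpace ℝ (Fin 1)) N]

theorem half_isManifold [IsManifold (𝓡 1) ∞ N] :
    @IsManifold ℝ _ _ _ _ _ _ (𝓡∂ 1) ∞ N _ (halfCharted N) := by
  let := halfCharted N
  apply isManifold_of_contDiffOn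
  rintro e e' ⟨c, hc, rfl⟩ ⟨c', hc', rfl⟩
  have h1 : ContDiffOn ℝ ∞ ((𝓡 1) ∘ c.symm.trans c' ∘ (𝓡 1).symm)
      ((𝓡 1).symm ⁻¹' (c.symm.trans c').source ∩ range (𝓡 1)) :=
    (contDiffGroupoid ∞ (𝓡 1)).compatible hc hc' |> fun h => by
      rw [contDiffGroupoid, mem_groupoid_of_pregroupoid] at h
      exact h.1
  have h2 : ContDiffOn ℝ ∞ (c.symm.trans c') (c.symm.trans c').source := by
    simpa using h1
  have key : ∀ v ∈ ((𝓡∂ 1).symm ⁻¹' ((c.trans exH).symm.trans (c'.trans exH)).source ∩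
      range (𝓡∂ 1)), 0 < v 0 ∧ lg v ∈ (c.symm.trans c').source := by
    rintro v ⟨hv, hr⟩
    rw [mem_preimage, OpenPartialHomeomorph.trans_source] at hv
    obtain ⟨⟨ha, hb⟩, hc, -⟩ := hv
    have hv' := symm_val hr
    have ha' : 0 < ((𝓡∂ 1).symm v).1 0 := ha
    rw [hv'] at ha'
    refine ⟨ha', ?_, ?_⟩
    · have hb' : lg ((𝓡∂ 1).symm v).1 ∈ c.target := hb
      rwa [hv'] at hb'
    · have hc' : c.symm (lg ((𝓡∂ 1).symm v).1) ∈ c'.source := hc
      rwa [hv'] at hc'
  have h3 : ContDiffOn ℝ ∞ (ex ∘ (c.symm.trans c') ∘ lg)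
      ((𝓡∂ 1).symm ⁻¹' ((c.trans exH).symm.trans (c'.trans exH)).source ∩ range (𝓡∂ 1)) :=
    (contDiff_ex ∞).comp_contDiffOn (h2.comp ((contDiffOn_lg ∞).mono fun v hv => (key v hv).1)
      fun v hv => (key v hv).2)
  refine h3.congr ?_
  rintro v ⟨hv, hr⟩
  have hv' := symm_val hr
  show ex (c' (c.symm (lg ((𝓡∂ 1).symm v).1))) = ex (c' (c.symm (lg v)))
  rw [hv']

theorem contMDiff_id_half [IsManifold (𝓡 1) ∞ N] :
    letI := halfCharted N
    ContMDiff (𝓡 1) (𝓡∂ 1) ∞ (id : N → N) := by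
  let := halfCharted N
  intro x
  rw [contMDiffAt_iff]
  refine ⟨continuousAt_id, ?_⟩
  have h : ContDiffWithinAt ℝ ∞ ex (range (𝓡 1)) (extChartAt (𝓡 1) x x) :=
    (contDiff_ex ∞).contDiffWithinAt
  refine h.congr_of_eventuallyEq ?_ ?_
  · have hmem : (extChartAt (𝓡 1) x).target ∈ 𝓝[range (𝓡 1)] (extChartAt (𝓡 1) x x) :=
      extChartAt_target_mem_nhdsWithin x
    filter_upwards [hmem] with v hv
    show ex ((chartAt (EuclideanSpace ℝ (Fin 1)) x) ((extChartAt (𝓡 1) x).symm v)) = ex v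
    congr 1
    exact (extChartAt (𝓡 1) x).right_inv hv
  · show ex ((chartAt (EuclideanSpace ℝ (Fin 1)) x)
      ((extChartAt (𝓡 1) x).symm (extChartAt (𝓡 1) x x))) = ex (extChartAt (𝓡 1) x x)
    congr 1
    exact (extChartAt (𝓡 1) x).right_inv (mem_extChartAt_target x)

theorem contMDiff_id_half' [IsManifold (𝓡 1) ∞ N] :
    letI := halfCharted N
    ContMDiff (𝓡∂ 1) (𝓡 1) ∞ (id : N → N) := by
  let := halfCharted N
  intro x
  rw [contMDiffAt_iff]
  refine ⟨continuousAt_id, ?_⟩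
  have hx : extChartAt (𝓡∂ 1) x x = ex (extChartAt (𝓡 1) x x) := rfl
  have hpos : 0 < (extChartAt (𝓡∂ 1) x x) 0 := by rw [hx]; exact ex_pos _
  have h : ContDiffWithinAt ℝ ∞ lg (range (𝓡∂ 1)) (extChartAt (𝓡∂ 1) x x) :=
    ((contDiffOn_lg ∞).contDiffAt (isOpen_pos.mem_nhds hpos)).contDiffWithinAt
  have hmem : (extChartAt (𝓡∂ 1) x).target ∈ 𝓝[range (𝓡∂ 1)] (extChartAt (𝓡∂ 1) x x) :=
    extChartAt_target_mem_nhdsWithin x
  have key : ∀ v ∈ (extChartAt (𝓡∂ 1) x).target,
      chartAt (EuclideanSpace ℝ (Fin 1)) x ((extChartAt (𝓡∂ 1) x).symm v) = lg v := by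
    intro v hv
    have h1 := (extChartAt (𝓡∂ 1) x).right_inv hv
    have h2 : ex (chartAt (EuclideanSpace ℝ (Fin 1)) x ((extChartAt (𝓡∂ 1) x).symm v)) = v := h1
    rw [← h2, lg_ex, h2]
  refine h.congr_of_eventuallyEq ?_ ?_
  · filter_upwards [hmem] with v hv
    exact key v hv
  · exact key _ (mem_extChartAt_target x)

theorem contMDiff_half_iff [IsManifold (𝓡 1) ∞ N] (k : ℕ∞) (F : N → N)
    (hF : ContMDiff (𝓡 1) (𝓡 1) (k : WithTop ℕ∞) F) :
    letI := halfCharted N
    ContMDiff (𝓡∂ 1) (𝓡∂ 1) (k : WithTop ℕ∞) F := by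
  let := halfCharted N
  have h1 := (contMDiff_id_half N).of_le (show (k : WithTop ℕ∞) ≤ ∞ by exact_mod_cast le_top)
  have h2 := (contMDiff_id_half' N).of_le (show (k : WithTop ℕ∞) ≤ ∞ by exact_mod_cast le_top)
  exact h1.comp (hF.comp h2)

end

end Pool.Agent.X171.Det
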