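import Pool.Agent.W585.Param

/-!
# Square roots of functions of `s ^ 2`

If `P` is `C^k` on `[0,δ]`, `k ≥ 1`, `P 0 = 0` and `P x ≥ c x` with `c > 0`, then the odd function
`sign s * √(P (s ^ 2))` is `C^k` near `0`.
-/

set_option autoImplicit false

open Set Filter Topology MeasureTheory
open scoped ContDiff

noncomputable section

namespace Pool.Agent.X171.Det

lemma sign_mul_abs' (s : ℝ) : Real.sign s * |s| = s := by
  rcases lt_trichotomy s 0 with h | h | h
  · rw [Real.sign_of_neg h, abs_of_neg h]; ring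
  · simp [h]
  · rw [Real.sign_of_pos h, abs_of_pos h]; ring

lemma sign_mul_self' (s : ℝ) : Real.sign s * s = |s| := by
  rcases lt_trichotomy s 0 with h | h | h
  · rw [Real.sign_of_neg h, abs_of_neg h]; ring
  · simp [h]
  · rw [Real.sign_of_pos h, abs_of_pos h]; ring

/-- extension of `C^m` functions from a compact interval to the line -/
lemma exists_extension (m : ℕ) : ∀ {a b : ℝ} (_ : a < b) (p : ℝ → ℝ), ContDiffOn ℝ m p (Icc a b) →
    ∃ q : ℝ → ℝ, ContDiff ℝ m q ∧ EqOn q p (Icc a b) := by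
  induction m with
  | zero =>
    intro a b hab p hp
    have hc : ContinuousOn p (Icc a b) := hp.continuousOn
    refine ⟨IccExtend hab.le ((Icc a b).domRestrict p), ?_, ?_⟩
    · rw [Nat.cast_zero, contDiff_zero]
      exact (continuousOn_iff_continuous_domRestrict.1 hc).Icc_extend'
    · intro x hx
      rw [IccExtend_of_mem _ _ hx]
      rfl
  | succ m ih =>
    intro a b hab p hp
    have hu := uniqueDiffOn_Icc hab
    have hp' : ContDiffOn ℝ m (derivWithin p (Icc a b)) (Icc a b) := by
      have := (contDiffOn_succ_iff_derivWithin (n := m) hu).1 (by exact_mod_cast hp)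
      exact this.2.2
    have hd : DifferentiableOn ℝ p (Icc a b) := hp.differentiableOn (by simp)
    obtain ⟨q, hq, hqe⟩ := ih hab _ hp'
    refine ⟨fun x => p a + ∫ t in a..x, q t, ?_, ?_⟩
    · have hder : ∀ x, HasDerivAt (fun x => p a + ∫ t in a..x, q t) (q x) x := by
        intro x
        have h := intervalIntegral.integral_hasDerivAt_right
          (hq.continuous.intervalIntegrable a x)
          (hq.continuous.stronglyMeasurableAtFilter _ _) hq.continuous.continuousAt
        exact h.const_add (p a)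
      have h1 : ContDiff ℝ ((m : WithTop ℕ∞) + 1) (fun x => p a + ∫ t in a..x, q t) := by
        rw [contDiff_succ_iff_deriv]
        refine ⟨fun x => (hder x).differentiableAt, by simp, ?_⟩
        rwa [show deriv (fun x => p a + ∫ t in a..x, q t) = q from funext fun x => (hder x).deriv]
      exact_mod_cast h1
    · intro x hx
      have h1 : ∫ t in a..x, derivWithin p (Icc a b) t = p x - p a := by
        refine intervalIntegral.integral_eq_sub_of_hasDerivAt_of_le hx.1
          (hp.continuousOn.mono (Icc_subset_Icc_right hx.2)) ?_ ?_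
        · intro t ht
          have htm : t ∈ Icc a b := ⟨ht.1.le, ht.2.le.trans hx.2⟩
          have := (hd t htm).hasDerivWithinAt
          exact this.hasDerivAt (Icc_mem_nhds ht.1 (ht.2.trans_le hx.2))
        · exact (hp'.continuousOn.mono (by
            rw [uIcc_of_le hx.1]; exact Icc_subset_Icc_right hx.2)).intervalIntegrable
      have h2 : ∫ t in a..x, q t = ∫ t in a..x, derivWithin p (Icc a b) t := by
        refine intervalIntegral.integral_congr fun t ht => ?_
        rw [uIcc_of_le hx.1] at ht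
        exact hqe ⟨ht.1, ht.2.trans hx.2⟩
      show p a + ∫ t in a..x, q t = p x
      rw [h2, h1]
      ring

/-- Hadamard's lemma -/
lemma exists_quotient (m : ℕ) {P : ℝ → ℝ} (hP : ContDiff ℝ (m + 1 : ℕ) P) (h0 : P 0 = 0) :
    ∃ Q : ℝ → ℝ, ContDiff ℝ m Q ∧ ∀ x, P x = x * Q x := by
  have hP' : ContDiff ℝ m (deriv P) := by
    have h : ContDiff ℝ ((m : WithTop ℕ∞) + 1) P := by exact_mod_cast hP
    exact (contDiff_succ_iff_deriv.1 h).2.2
  refine ⟨fun x => ∫ u in (0:ℝ)..1, deriv P (x * u), ?_, ?_⟩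
  · refine Pool.Agent.W585.contDiff_param_nat 0 1 m ℝ (fun x u => deriv P (x * u)) ?_
    exact hP'.comp (contDiff_fst.mul contDiff_snd)
  · intro x
    have hd : Differentiable ℝ P := hP.differentiable (by simp)
    have h1 : ∫ u in (0:ℝ)..1, x * deriv P (x * u) = P (x * 1) - P (x * 0) := by
      refine intervalIntegral.integral_eq_sub_of_hasDerivAt
        (f := fun u : ℝ => P (x * u)) (fun u _ => ?_) ?_
      · have h2 : HasDerivAt (fun u : ℝ => x * u) x u := by
          simpa using (hasDerivAt_id u).const_mul x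
        have h3 : HasDerivAt (fun u : ℝ => P (x * u)) (deriv P (x * u) * x) u :=
          (hd (x * u)).hasDerivAt.comp u h2
        rw [mul_comm] at h3
        exact h3
      · have : Continuous (deriv P) := hP'.continuous
        exact (by fun_prop : Continuous fun u : ℝ => x * deriv P (x * u)).intervalIntegrable _ _
    rw [intervalIntegral.integral_const_mul, mul_one, mul_zero, h0, sub_zero] at h1
    exact h1.symm

/-- the odd square root, finite regularity -/
lemma root_nat (m : ℕ) {P : ℝ → ℝ} {δ c : ℝ} (hδ : 0 < δ) (hc : 0 < c)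
    (hP : ContDiffOn ℝ (m + 1 : ℕ) P (Icc 0 δ)) (h0 : P 0 = 0)
    (hpos : ∀ x ∈ Icc 0 δ, c * x ≤ P x) :
    ContDiffAt ℝ (m + 1 : ℕ) (fun s => Real.sign s * √(P (s ^ 2))) 0 := by
  obtain ⟨R, hR, hRP⟩ := exists_extension (m + 1) hδ P hP
  have hR0 : R 0 = 0 := by rw [hRP ⟨le_rfl, hδ.le⟩, h0]
  obtain ⟨Q, hQ, hRQ⟩ := exists_quotient m hR hR0
  have hR' : ContDiff ℝ m (deriv R) := by
    have h : ContDiff ℝ ((m : WithTop ℕ∞) + 1) R := by exact_mod_cast hR
    exact (contDiff_succ_iff_deriv.1 h).2.2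
  have hRd : Differentiable ℝ R := hR.differentiable (by simp)
  have hQc : Continuous Q := hQ.continuous
  -- lower bound of the quotient
  have hQpos' : ∀ x ∈ Ioc 0 δ, c ≤ Q x := by
    intro x hx
    have h1 := hpos x ⟨hx.1.le, hx.2⟩
    rw [← hRP ⟨hx.1.le, hx.2⟩, hRQ, mul_comm] at h1
    exact le_of_mul_le_mul_left h1 hx.1
  have hQpos : ∀ x ∈ Icc 0 δ, c ≤ Q x := by
    have hcl : Icc 0 δ ⊆ closure (Ioc 0 δ) := by rw [closure_Ioc hδ.ne]
    intro x hx
    have : closure (Ioc 0 δ) ⊆ {x | c ≤ Q x} :=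
      closure_minimal hQpos' (isClosed_le continuous_const hQc)
    exact this (hcl hx)
  -- the open interval on which we work
  set U : Set ℝ := {s | s ^ 2 < δ} with hU
  have hUo : IsOpen U := isOpen_lt (by fun_prop) continuous_const
  have hU0 : (0 : ℝ) ∈ U := by simp [hU, hδ]
  set h : ℝ → ℝ := fun s => s * √(Q (s ^ 2)) with hh
  have heq : EqOn (fun s => Real.sign s * √(P (s ^ 2))) h U := by
    intro s hs
    have hs' : s ^ 2 ∈ Icc 0 δ := ⟨sq_nonneg s, le_of_lt hs⟩
    show Real.sign s * √(P (s ^ 2)) = s * √(Q (s ^ 2))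
    rw [← hRP hs', hRQ, Real.sqrt_mul (sq_nonneg s), Real.sqrt_sq_eq_abs, ← mul_assoc,
      sign_mul_abs']
  have hder : ∀ s ∈ U, HasDerivAt h (deriv R (s ^ 2) / √(Q (s ^ 2))) s := by
    intro s hs
    have hs' : s ^ 2 ∈ Icc 0 δ := ⟨sq_nonneg s, le_of_lt hs⟩
    have hq := hQpos _ hs'
    have hq0 : 0 < Q (s ^ 2) := hc.trans_le hq
    have hsq : 0 < √(Q (s ^ 2)) := Real.sqrt_pos.2 hq0
    rcases eq_or_ne s 0 with rfl | hne
    · -- at the origin
      have hRder : deriv R ((0 : ℝ) ^ 2) = Q ((0 : ℝ) ^ 2) := by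
        have h1 : HasDerivAt R (Q 0) 0 := by
          rw [hasDerivAt_iff_tendsto_slope]
          have : ∀ᶠ x in 𝓝[≠] (0 : ℝ), Q x = slope R 0 x := by
            filter_upwards [self_mem_nhdsWithin] with x hx
            rw [slope_def_field, hR0, hRQ x, sub_zero, sub_zero]
            field_simp [show x ≠ 0 from hx]
          exact ((hQc.tendsto 0).mono_left nhdsWithin_le_nhds).congr' this
        rw [zero_pow two_ne_zero]
        exact h1.deriv
      rw [hRder, Real.div_sqrt]
      rw [hasDerivAt_iff_tendsto_slope]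
      have hcont : Continuous fun s : ℝ => √(Q (s ^ 2)) := by fun_prop
      have : ∀ᶠ x in 𝓝[≠] (0 : ℝ), √(Q (x ^ 2)) = slope h 0 x := by
        filter_upwards [self_mem_nhdsWithin] with x hx
        rw [slope_def_field, hh]
        simp only [zero_mul, sub_zero]
        field_simp [show x ≠ 0 from hx]
      exact ((hcont.tendsto 0).mono_left nhdsWithin_le_nhds).congr' this
    · -- away from the origin
      have hRpos : 0 < R (s ^ 2) := by
        rw [hRQ]
        positivity
      have h1 : HasDerivAt (fun s : ℝ => √(R (s ^ 2)))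
          (deriv R (s ^ 2) * (2 * s) / (2 * √(R (s ^ 2)))) s := by
        have h2 : HasDerivAt (fun s : ℝ => R (s ^ 2)) (deriv R (s ^ 2) * (2 * s)) s := by
          have h3 : HasDerivAt (fun s : ℝ => s ^ 2) (2 * s) s := by
            simpa using hasDerivAt_pow 2 s
          exact (hRd (s ^ 2)).hasDerivAt.comp s h3
        exact h2.sqrt hRpos.ne'
      have h4 : HasDerivAt (fun t : ℝ => Real.sign s * √(R (t ^ 2)))
          (Real.sign s * (deriv R (s ^ 2) * (2 * s) / (2 * √(R (s ^ 2))))) s :=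
        h1.const_mul _
      have h5 : h =ᶠ[𝓝 s] fun t : ℝ => Real.sign s * √(R (t ^ 2)) := by
        have hsgn : ∀ᶠ t in 𝓝 s, Real.sign t = Real.sign s := by
          rcases lt_or_gt_of_ne hne with hlt | hgt
          · filter_upwards [Iio_mem_nhds hlt] with t ht
            rw [Real.sign_of_neg hlt, Real.sign_of_neg ht]
          · filter_upwards [Ioi_mem_nhds hgt] with t ht
            rw [Real.sign_of_pos hgt, Real.sign_of_pos ht]
        filter_upwards [hsgn] with t ht
        rw [← ht, hh]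
        simp only
        rw [hRQ, Real.sqrt_mul (sq_nonneg t), Real.sqrt_sq_eq_abs, ← mul_assoc,
          sign_mul_abs']
      have h6 : Real.sign s * (deriv R (s ^ 2) * (2 * s) / (2 * √(R (s ^ 2)))) =
          deriv R (s ^ 2) / √(Q (s ^ 2)) := by
        rw [hRQ, Real.sqrt_mul (sq_nonneg s), Real.sqrt_sq_eq_abs]
        have habs : Real.sign s * s = |s| := sign_mul_self' s
        have habs0 : |s| ≠ 0 := abs_ne_zero.2 hne
        rw [← habs] at habs0 ⊢
        have hs1 : Real.sign s ≠ 0 := left_ne_zero_of_mul habs0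
        field_simp
      rw [← h6]
      exact h4.congr_of_eventuallyEq h5
  have hderC : ContDiffOn ℝ m (fun s => deriv R (s ^ 2) / √(Q (s ^ 2))) U := by
    have h1 : ContDiff ℝ m (fun s : ℝ => deriv R (s ^ 2)) := hR'.comp (contDiff_id.pow 2)
    have h2 : ContDiff ℝ m (fun s : ℝ => Q (s ^ 2)) := hQ.comp (contDiff_id.pow 2)
    have h3 : ContDiffOn ℝ m (fun s : ℝ => √(Q (s ^ 2))) U := by
      refine h2.contDiffOn.sqrt fun s hs => ?_
      exact (hc.trans_le (hQpos _ ⟨sq_nonneg s, le_of_lt hs⟩)).ne'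
    refine h1.contDiffOn.div h3 fun s hs => ?_
    exact (Real.sqrt_pos.2 (hc.trans_le (hQpos _ ⟨sq_nonneg s, le_of_lt hs⟩))).ne'
  have hfin : ContDiffOn ℝ ((m : WithTop ℕ∞) + 1) h U := by
    rw [contDiffOn_succ_iff_deriv_of_isOpen hUo]
    refine ⟨fun s hs => (hder s hs).differentiableAt.differentiableWithinAt, by simp, ?_⟩
    exact hderC.congr fun s hs => (hder s hs).deriv
  have hfin' : ContDiffAt ℝ (m + 1 : ℕ) h 0 := by
    have := hfin.contDiffAt (hUo.mem_nhds hU0)
    exact_mod_cast this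
  exact hfin'.congr_of_eventuallyEq (heq.eventuallyEq_of_mem (hUo.mem_nhds hU0))

/-- the odd square root -/
lemma root_contDiffAt (k : ℕ∞) (hk : 1 ≤ k) {P : ℝ → ℝ} {δ c : ℝ} (hδ : 0 < δ) (hc : 0 < c)
    (hP : ContDiffOn ℝ (k : WithTop ℕ∞) P (Icc 0 δ)) (h0 : P 0 = 0)
    (hpos : ∀ x ∈ Icc 0 δ, c * x ≤ P x) :
    ContDiffAt ℝ (k : WithTop ℕ∞) (fun s => Real.sign s * √(P (s ^ 2))) 0 := by
  induction k using ENat.recTopCoe with
  | top =>
    rw [contDiffAt_infty]
    intro n
    have h1 : ContDiffOn ℝ (n + 1 : ℕ) P (Icc 0 δ) := hP.of_le (by exact_mod_cast le_top)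
    exact (root_nat n hδ hc h1 h0 hpos).of_le (by exact_mod_cast Nat.le_succ n)
  | coe n =>
    obtain ⟨m, rfl⟩ : ∃ m, n = m + 1 := ⟨n - 1, by
      have : 1 ≤ n := by exact_mod_cast hk
      omega⟩
    exact root_nat m hδ hc hP h0 hpos

end Pool.Agent.X171.Det
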