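import Pool.Agent.X171.Det.Half
import Pool.Agent.X171.Det.Root

/-!
# Lifting actions on `[-1,1]` to the circle by the quadratic double cover
-/

set_option autoImplicit false

open Set Filter Topology
open scoped Manifold ContDiff

noncomputable section

namespace Pool.Agent.X171.Det

instance fact_neg_one_lt_one : Fact ((-1 : ℝ) < 1) := ⟨by norm_num⟩

/-- the interval -/
abbrev J : Type := Icc (-1 : ℝ) 1

/-- the extension of a self-map of the interval by constants -/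
def hat (ψ : J → J) (x : ℝ) : ℝ := (ψ (projIcc (-1) 1 (by norm_num) x) : ℝ)

lemma hat_mem (ψ : J → J) (x : ℝ) : hat ψ x ∈ Icc (-1 : ℝ) 1 := (ψ _).2

lemma hat_of_mem (ψ : J → J) {x : ℝ} (hx : x ∈ Icc (-1 : ℝ) 1) : hat ψ x = ψ ⟨x, hx⟩ := by
  unfold hat
  rw [projIcc_of_mem]

lemma hat_coe (ψ : J → J) (x : J) : hat ψ x = ψ x := hat_of_mem ψ x.2

lemma hat_comp (φ ψ : J → J) (x : ℝ) : hat (φ ∘ ψ) x = hat φ (hat ψ x) := by
  rw [hat_of_mem φ (hat_mem ψ x)]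
  rfl

lemma hat_contDiffOn {k : WithTop ℕ∞} {ψ : J → J} (h : ContMDiff (𝓡∂ 1) (𝓡∂ 1) k ψ) :
    ContDiffOn ℝ k (hat ψ) (Icc (-1) 1) := by
  have h1 : ContMDiff (𝓡∂ 1) 𝓘(ℝ) k (fun z : J => ((ψ z : J) : ℝ)) :=
    contMDiff_subtypeVal_Icc.comp h
  have h2 := (contMDiffOn_comp_projIcc_iff (x := -1) (y := 1)).2 h1
  exact contMDiffOn_iff_contDiffOn.1 h2

/-- the endpoints are preserved -/
lemma endpoints {ψ : J → J} (hc : Continuous ψ) (hb : Function.Bijective ψ) :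
    (hat ψ 1 = 1 ∧ hat ψ (-1) = -1) ∨ (hat ψ 1 = -1 ∧ hat ψ (-1) = 1) := by
  have hcont : ContinuousOn (hat ψ) (Icc (-1) 1) :=
    (continuous_subtype_val.comp (hc.comp continuous_projIcc)).continuousOn
  have hinj : InjOn (hat ψ) (Icc (-1) 1) := by
    intro x hx y hy hxy
    rw [hat_of_mem ψ hx, hat_of_mem ψ hy] at hxy
    exact congrArg Subtype.val (hb.1 (Subtype.ext hxy))
  have hsurj : ∀ y ∈ Icc (-1 : ℝ) 1, ∃ x ∈ Icc (-1 : ℝ) 1, hat ψ x = y := by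
    intro y hy
    obtain ⟨x, hx⟩ := hb.2 ⟨y, hy⟩
    exact ⟨x, x.2, by rw [hat_coe, hx]⟩
  have m1 : (1 : ℝ) ∈ Icc (-1 : ℝ) 1 := by constructor <;> norm_num
  have m2 : (-1 : ℝ) ∈ Icc (-1 : ℝ) 1 := by constructor <;> norm_num
  obtain ⟨a, ha, ha1⟩ := hsurj 1 m1
  obtain ⟨b, hb, hb1⟩ := hsurj (-1) m2
  rcases hcont.strictMonoOn_of_injOn_Icc' (by norm_num) hinj with h | h
  · left
    constructor
    · refine le_antisymm (hat_mem ψ 1).2 (ha1.symm.le.trans ?_)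
      exact h.monotoneOn ha m1 ha.2
    · refine le_antisymm (le_trans ?_ hb1.le) (hat_mem ψ (-1)).1
      exact h.monotoneOn m2 hb hb.1
  · right
    constructor
    · refine le_antisymm (le_trans ?_ hb1.le) (hat_mem ψ 1).1
      exact h.antitoneOn hb m1 hb.2
    · refine le_antisymm (hat_mem ψ (-1)).2 (ha1.symm.le.trans ?_)
      exact h.antitoneOn m2 ha ha.1

lemma endpoints_sq {ψ : J → J} (hc : Continuous ψ) (hb : Function.Bijective ψ) :
    hat ψ 1 ^ 2 = 1 ∧ hat ψ (-1) ^ 2 = 1 := by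
  rcases endpoints hc hb with ⟨h1, h2⟩ | ⟨h1, h2⟩ <;> rw [h1, h2] <;> norm_num

lemma sq_lt_one {ψ : J → J} (hc : Continuous ψ) (hb : Function.Bijective ψ) {x : ℝ}
    (hx : x ∈ Ioo (-1 : ℝ) 1) : hat ψ x ^ 2 < 1 := by
  have hx' := Ioo_subset_Icc_self hx
  have hinj : ∀ y ∈ Icc (-1 : ℝ) 1, hat ψ x = hat ψ y → x = y := by
    intro y hy hxy
    rw [hat_of_mem ψ hx', hat_of_mem ψ hy] at hxy
    exact congrArg Subtype.val (hb.1 (Subtype.ext hxy))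
  have m1 : (1 : ℝ) ∈ Icc (-1 : ℝ) 1 := by constructor <;> norm_num
  have m2 : (-1 : ℝ) ∈ Icc (-1 : ℝ) 1 := by constructor <;> norm_num
  have hm := hat_mem ψ x
  have n1 : hat ψ x ≠ 1 := by
    intro h
    rcases endpoints hc hb with ⟨h1, h2⟩ | ⟨h1, h2⟩
    · exact hx.2.ne (hinj 1 m1 (by rw [h, h1]))
    · exact hx.1.ne' (hinj (-1) m2 (by rw [h, h2]))
  have n2 : hat ψ x ≠ -1 := by
    intro h
    rcases endpoints hc hb with ⟨h1, h2⟩ | ⟨h1, h2⟩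
    · exact hx.1.ne' (hinj (-1) m2 (by rw [h, h2]))
    · exact hx.2.ne (hinj 1 m1 (by rw [h, h1]))
  have l1 : hat ψ x < 1 := lt_of_le_of_ne hm.2 n1
  have l2 : -1 < hat ψ x := lt_of_le_of_ne hm.1 (Ne.symm n2)
  nlinarith

/-- Lipschitz bound -/
lemma hat_lipschitz {ψ : J → J} (h : ContMDiff (𝓡∂ 1) (𝓡∂ 1) 1 ψ) :
    ∃ K : ℝ, 0 < K ∧ ∀ x ∈ Icc (-1 : ℝ) 1, ∀ y ∈ Icc (-1 : ℝ) 1,
      |hat ψ x - hat ψ y| ≤ K * |x - y| := by
  have hc := hat_contDiffOn h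
  have hu : UniqueDiffOn ℝ (Icc (-1 : ℝ) 1) := uniqueDiffOn_Icc (by norm_num)
  have hd : ContinuousOn (derivWithin (hat ψ) (Icc (-1) 1)) (Icc (-1) 1) :=
    hc.continuousOn_derivWithin hu le_rfl
  obtain ⟨K, hK⟩ := isCompact_Icc.exists_bound_of_continuousOn hd
  refine ⟨max K 1, lt_max_of_lt_right one_pos, ?_⟩
  intro x hx y hy
  have := (convex_Icc (-1 : ℝ) 1).norm_image_sub_le_of_norm_derivWithin_le
    (hc.differentiableOn one_ne_zero) (fun z hz => (hK z hz).trans (le_max_left K 1)) hy hx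
  simpa [Real.norm_eq_abs] using this

/-- the lower bound for `1 - ψ ^ 2` -/
lemma lower_bound (ψ : Equiv.Perm J) (h : ContMDiff (𝓡∂ 1) (𝓡∂ 1) 1 ψ)
    (h' : ContMDiff (𝓡∂ 1) (𝓡∂ 1) 1 ψ.symm) :
    ∃ c : ℝ, 0 < c ∧ ∀ x ∈ Icc (-1 : ℝ) 1, c * (1 - x ^ 2) ≤ 1 - hat ψ x ^ 2 := by
  obtain ⟨K, hK, hL⟩ := hat_lipschitz h'
  refine ⟨(K ^ 2)⁻¹, by positivity, ?_⟩
  intro x hx
  have m1 : (1 : ℝ) ∈ Icc (-1 : ℝ) 1 := by constructor <;> norm_num
  have m2 : (-1 : ℝ) ∈ Icc (-1 : ℝ) 1 := by constructor <;> norm_num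
  have inv : ∀ y ∈ Icc (-1 : ℝ) 1, hat ψ.symm (hat ψ y) = y := by
    intro y hy
    rw [← hat_comp]
    rw [hat_of_mem _ hy]
    simp
  have b1 := hL _ (hat_mem ψ x) _ (hat_mem ψ 1)
  have b2 := hL _ (hat_mem ψ x) _ (hat_mem ψ (-1))
  rw [inv x hx, inv 1 m1] at b1
  rw [inv x hx, inv (-1) m2] at b2
  have e1 : |x - 1| * |x - -1| = 1 - x ^ 2 := by
    rw [abs_of_nonpos (by linarith [hx.2]), abs_of_nonneg (by linarith [hx.1])]
    ring
  have hmx := hat_mem ψ x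
  have e2 : |hat ψ x - hat ψ 1| * |hat ψ x - hat ψ (-1)| = 1 - hat ψ x ^ 2 := by
    rcases endpoints h.continuous ψ.bijective with ⟨h1, h2⟩ | ⟨h1, h2⟩ <;> rw [h1, h2]
    · rw [abs_of_nonpos (by linarith [hmx.2]), abs_of_nonneg (by linarith [hmx.1])]
      ring
    · rw [abs_of_nonneg (by linarith [hmx.1]), abs_of_nonpos (by linarith [hmx.2])]
      ring
  have b3 : 1 - x ^ 2 ≤ K ^ 2 * (1 - hat ψ x ^ 2) := by
    rw [← e1, ← e2]
    calc |x - 1| * |x - -1| ≤ (K * |hat ψ x - hat ψ 1|) * (K * |hat ψ x - hat ψ (-1)|) :=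
          mul_le_mul b1 b2 (abs_nonneg _) (by positivity)
      _ = _ := by ring
  rw [inv_mul_le_iff₀ (by positivity)]
  exact b3

/-- the lift of a self-map of the interval to the plane -/
def lift (ψ : J → J) (z : ℂ) : ℂ :=
  ⟨hat ψ z.re, Real.sign z.im * √(1 - hat ψ z.re ^ 2)⟩

lemma lift_contDiffAt_of_ne {k : WithTop ℕ∞} {ψ : J → J} (h : ContMDiff (𝓡∂ 1) (𝓡∂ 1) k ψ)
    (hb : Function.Bijective ψ) {z : ℂ} (hz : z.im ≠ 0) (hz' : z.re ∈ Ioo (-1 : ℝ) 1) :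
    ContDiffAt ℝ k (lift ψ) z := by
  have h0 : ContDiffAt ℝ k (hat ψ) z.re :=
    ((hat_contDiffOn h).contDiffAt (Icc_mem_nhds hz'.1 hz'.2))
  have hre : ContDiffAt ℝ k (fun w : ℂ => w.re) z := Complex.reCLM.contDiff.contDiffAt
  have h1 : ContDiffAt ℝ k (fun w : ℂ => hat ψ w.re) z := h0.comp z hre
  have h2 : ContDiffAt ℝ k (fun w : ℂ => √(1 - hat ψ w.re ^ 2)) z := by
    refine (contDiffAt_const.sub (h1.pow 2)).sqrt ?_
    have := sq_lt_one h.continuous hb hz'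
    show 1 - hat ψ z.re ^ 2 ≠ 0
    linarith
  have h3 : ContDiffAt ℝ k (fun w : ℂ => (⟨hat ψ w.re, Real.sign z.im *
      √(1 - hat ψ w.re ^ 2)⟩ : ℂ)) z := by
    have h4 : ContDiffAt ℝ k (fun w : ℂ => Complex.equivRealProdCLM.symm
        (hat ψ w.re, Real.sign z.im * √(1 - hat ψ w.re ^ 2))) z :=
      Complex.equivRealProdCLM.symm.contDiff.contDiffAt.comp z
        (h1.prodMk (contDiffAt_const.mul h2))
    exact h4
  refine h3.congr_of_eventuallyEq ?_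
  have hsgn : ∀ᶠ w : ℂ in 𝓝 z, Real.sign w.im = Real.sign z.im := by
    have hcim : Continuous fun w : ℂ => w.im := Complex.continuous_im
    rcases lt_or_gt_of_ne hz with hlt | hgt
    · have : ∀ᶠ w : ℂ in 𝓝 z, w.im < 0 := hcim.continuousAt.eventually_lt_const hlt
      filter_upwards [this] with t ht
      rw [Real.sign_of_neg hlt, Real.sign_of_neg ht]
    · have : ∀ᶠ w : ℂ in 𝓝 z, 0 < w.im := hcim.continuousAt.eventually_const_lt hgt
      filter_upwards [this] with t ht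
      rw [Real.sign_of_pos hgt, Real.sign_of_pos ht]
  filter_upwards [hsgn] with w hw
  simp only [lift, hw]

/-- near `1` and `-1` -/
lemma lift_contDiffAt_end (k : ℕ∞) (hk : 1 ≤ k) (ψ : Equiv.Perm J)
    (h : ContMDiff (𝓡∂ 1) (𝓡∂ 1) (k : WithTop ℕ∞) ψ)
    (h' : ContMDiff (𝓡∂ 1) (𝓡∂ 1) (k : WithTop ℕ∞) ψ.symm) (ε : ℝ) (hε : ε = 1 ∨ ε = -1) :
    ContDiffAt ℝ (k : WithTop ℕ∞) (fun s : ℝ => (⟨hat ψ (ε * √(1 - s ^ 2)),
      Real.sign s * √(1 - hat ψ (ε * √(1 - s ^ 2)) ^ 2)⟩ : ℂ)) 0 := by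
  have hk' : (1 : WithTop ℕ∞) ≤ (k : WithTop ℕ∞) := by exact_mod_cast hk
  have hε2 : ε ^ 2 = 1 := by rcases hε with rfl | rfl <;> norm_num
  have habs : |ε| = 1 := by rcases hε with rfl | rfl <;> norm_num
  obtain ⟨c, hc, hbd⟩ := lower_bound ψ (h.of_le hk') (h'.of_le hk')
  have hsm : ContDiffOn ℝ (k : WithTop ℕ∞) (fun x : ℝ => ε * √(1 - x)) (Iio 1) := by
    refine contDiffOn_const.mul ((contDiffOn_const.sub contDiffOn_id).sqrt fun x hx => ?_)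
    have : x < 1 := hx
    show 1 - x ≠ 0
    linarith
  have hmem : ∀ x ∈ Ici (0 : ℝ), ε * √(1 - x) ∈ Icc (-1 : ℝ) 1 := by
    intro x hx
    have hx' : (0 : ℝ) ≤ x := hx
    rw [mem_Icc, ← abs_le, abs_mul, habs, one_mul, abs_of_nonneg (Real.sqrt_nonneg _)]
    exact Real.sqrt_le_one.2 (by linarith)
  -- the composite with the hat function
  have hP : ContDiffOn ℝ (k : WithTop ℕ∞) (fun x : ℝ => hat ψ (ε * √(1 - x))) (Icc 0 (1 / 2)) :=
    (hat_contDiffOn h).comp (hsm.mono fun x hx => by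
      have := hx.2
      show x < 1
      linarith) fun x hx => hmem x hx.1
  have hP2 : ContDiffOn ℝ (k : WithTop ℕ∞) (fun x : ℝ => 1 - hat ψ (ε * √(1 - x)) ^ 2)
      (Icc 0 (1 / 2)) := contDiffOn_const.sub (hP.pow 2)
  have hr := root_contDiffAt k hk (δ := 1 / 2) (by norm_num) hc hP2 (by
      have := endpoints_sq h.continuous ψ.bijective
      rcases hε with rfl | rfl
      · simp [this.1]
      · simp [this.2]) (by
      intro x hx
      have h1 := hbd _ (hmem x hx.1)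
      have h2 : (ε * √(1 - x)) ^ 2 = 1 - x := by
        rw [mul_pow, hε2, one_mul, Real.sq_sqrt]
        linarith [hx.2]
      rw [h2] at h1
      linarith)
  have hq : ContDiffAt ℝ (k : WithTop ℕ∞) (fun s : ℝ => hat ψ (ε * √(1 - s ^ 2))) 0 := by
    have h1 : ContDiffOn ℝ (k : WithTop ℕ∞) (fun s : ℝ => hat ψ (ε * √(1 - s ^ 2)))
        (Ioo (-(1 / 2)) (1 / 2)) := by
      refine hP.comp (contDiff_id.pow 2).contDiffOn fun s hs => ?_
      refine ⟨sq_nonneg s, ?_⟩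
      have h1 := hs.1
      have h2 := hs.2
      show s ^ 2 ≤ 1 / 2
      nlinarith
    exact h1.contDiffAt (Ioo_mem_nhds (by norm_num) (by norm_num))
  exact Complex.equivRealProdCLM.symm.contDiff.contDiffAt.comp 0 (hq.prodMk hr)

end Pool.Agent.X171.Det
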